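import Pool.Agent.Helper42.PW.Goals1

/-!
# Project PW (MP_fc6b1e_nt), packet L_DEN: the fixed field of the decomposition group
-/

set_option autoImplicit false

namespace Pool.Agent.Helper27.PW

open NumberField Module

section

variable {k : Type} [NormedField k]

theorem norm_p (p : ℕ) [Fact p.Prime] [NormedAlgebra ℚ_[p] k] : ‖((p : ℕ) : k)‖ = (p : ℝ)⁻¹ := by
  have h : ((p : ℕ) : k) = algebraMap ℚ_[p] k (p : ℚ_[p]) := (map_natCast _ _).symm
  rw [h, norm_algebraMap', Padic.norm_p]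

variable {M H : Type} [Field M] [Field H] [Algebra M H] (τ : H →+* k)

/-- The absolute value `x ↦ ‖τ (g x)‖`. -/
noncomputable def av (g : H ≃ₐ[M] H) : AbsoluteValue H ℝ where
  toFun x := ‖τ (g x)‖
  map_mul' x y := by rw [map_mul, map_mul, norm_mul]
  nonneg' x := norm_nonneg _
  eq_zero' x := by simp
  add_le' x y := by
    rw [map_add, map_add]
    exact norm_add_le _ _

theorem av_apply (g : H ≃ₐ[M] H) (x : H) : av τ g x = ‖τ (g x)‖ := rfl

theorem av_p (p : ℕ) [Fact p.Prime] [NormedAlgebra ℚ_[p] k] (g : H ≃ₐ[M] H) : av τ g (p : H) = (p : ℝ)⁻¹ := by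
  rw [av_apply, map_natCast, map_natCast, norm_p p]

theorem av_nontriv (p : ℕ) [Fact p.Prime] [NormedAlgebra ℚ_[p] k] (g : H ≃ₐ[M] H) : (av τ g).IsNontrivial := by
  have hp : p.Prime := Fact.out
  have h1 : (1 : ℝ) < p := by exact_mod_cast hp.one_lt
  refine ⟨(p : H), ?_, ?_⟩
  · intro h
    have := av_p τ p g
    rw [h, map_zero] at this
    have h2 : (0 : ℝ) < (p : ℝ)⁻¹ := by positivity
    linarith
  · rw [av_p τ p]
    intro h
    have : (p : ℝ)⁻¹ < 1 := inv_lt_one_of_one_lt₀ h1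
    linarith

theorem av_eq_of_equiv (p : ℕ) [Fact p.Prime] [NormedAlgebra ℚ_[p] k] (g g' : H ≃ₐ[M] H) (h : (av τ g).IsEquiv (av τ g')) :
    av τ g = av τ g' := by
  have hp : p.Prime := Fact.out
  have h1 : (1 : ℝ) < p := by exact_mod_cast hp.one_lt
  obtain ⟨c, hc, hcv⟩ := AbsoluteValue.isEquiv_iff_exists_rpow_eq.1 h
  have h2 := congrFun hcv (p : H)
  simp only [av_p τ p] at h2
  have h3 : c = 1 := by
    have h4 : Real.log (((p : ℝ)⁻¹) ^ c) = Real.log ((p : ℝ)⁻¹) := by rw [h2]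
    rw [Real.log_rpow (by positivity)] at h4
    have h5 : Real.log ((p : ℝ)⁻¹) ≠ 0 := by
      rw [Real.log_inv, neg_ne_zero]
      exact (Real.log_pos h1).ne'
    exact mul_right_cancel₀ h5 (by rw [h4, one_mul])
  ext x
  have h6 := congrFun hcv x
  rw [h3] at h6
  simpa using h6

/-- An element close to `1` at `τ` and close to `0` at the other absolute values. -/
theorem exists_E (p : ℕ) [Fact p.Prime] [NormedAlgebra ℚ_[p] k] [Finite (H ≃ₐ[M] H)] (η : ℝ) (hη : 0 < η) : ∃ E : H, ‖τ E - 1‖ ≤ η ∧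
    ∀ g : H ≃ₐ[M] H, av τ g ≠ av τ (1 : H ≃ₐ[M] H) → ‖τ (g E)‖ ≤ η := by
  classical
  let ι : Type := {a : AbsoluteValue H ℝ // ∃ g : H ≃ₐ[M] H, a = av τ g}
  have hfin : Finite ι := by
    have : Function.Surjective (fun g : H ≃ₐ[M] H => (⟨av τ g, g, rfl⟩ : ι)) := by
      rintro ⟨a, g, rfl⟩
      exact ⟨g, rfl⟩
    exact Finite.of_surjective _ this
  have h1 : ∀ i : ι, (i.1).IsNontrivial := by
    rintro ⟨a, g, rfl⟩
    exact av_nontriv τ p g
  have h2 : Pairwise fun i j : ι => ¬ (i.1).IsEquiv (j.1) := by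
    rintro ⟨a, g, rfl⟩ ⟨b, g', rfl⟩ hne h
    apply hne
    exact Subtype.ext (av_eq_of_equiv τ p g g' h)
  have h3 := AbsoluteValue.denseRange_algebraMap_pi (v := fun i : ι => i.1) h1 h2
  have := Fintype.ofFinite ι
  obtain ⟨E, hE⟩ := Metric.denseRange_iff.1 h3
    (fun i => if i.1 = av τ (1 : H ≃ₐ[M] H) then 1 else 0) η hη
  have h4 : ∀ i : ι, dist ((if i.1 = av τ (1 : H ≃ₐ[M] H) then 1 else 0 : WithAbs i.1))
      (algebraMap H (WithAbs i.1) E) < η := fun i =>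
    (dist_le_pi_dist _ _ i).trans_lt hE
  refine ⟨E, ?_, ?_⟩
  · have h5 := h4 ⟨av τ 1, 1, rfl⟩
    simp only [if_true] at h5
    rw [dist_comm, dist_eq_norm] at h5
    have h6 : ‖algebraMap H (WithAbs (av τ (1 : H ≃ₐ[M] H))) E - 1‖ = ‖τ E - 1‖ := by
      rw [WithAbs.norm_eq_apply_ofAbs]
      show av τ (1 : H ≃ₐ[M] H) (E - 1) = _
      rw [av_apply]
      simp
    rw [h6] at h5
    exact h5.le
  · intro g hg
    have h5 := h4 ⟨av τ g, g, rfl⟩
    simp only [hg, if_false] at h5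
    rw [dist_comm, dist_eq_norm, sub_zero, WithAbs.norm_eq_apply_ofAbs] at h5
    exact h5.le

end

theorem l_den : Pool.Agent.Helper42.PW.L_DEN := by
  classical
  intro p _ k _ _ _ M H _ _ _ _ _ _ τ
  set G := H ≃ₐ[M] H with hG
  set D : Finset (H ≃ₐ[M] H) := Finset.univ.filter fun g => av τ g = av τ (1 : H ≃ₐ[M] H) with hD
  have hDmem : ∀ g, g ∈ D ↔ av τ g = av τ (1 : H ≃ₐ[M] H) := fun g => by simp [hD]
  have h1D : (1 : H ≃ₐ[M] H) ∈ D := (hDmem 1).2 rfl
  have hDc : ((D.card : ℕ) : k) ≠ 0 := by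
    have h1 : ((D.card : ℕ) : k) = τ ((D.card : ℕ) : H) := (map_natCast τ _).symm
    rw [h1]
    intro h
    have h2 := (map_eq_zero τ).1 h
    have h3 : D.card = 0 := by exact_mod_cast h2
    rw [Finset.card_eq_zero] at h3
    rw [h3] at h1D
    exact absurd h1D (Finset.notMem_empty _)
  refine ⟨‖((D.card : ℕ) : k)‖⁻¹, by positivity, ?_⟩
  intro y ρ hρ hy
  -- choice of η
  set A : ℝ := 1 + ∑ g : H ≃ₐ[M] H, ‖τ (g y)‖ with hA
  have hA0 : 0 < A := by positivity
  have hAg : ∀ g : H ≃ₐ[M] H, ‖τ (g y)‖ ≤ A := by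
    intro g
    have := Finset.single_le_sum (f := fun g : H ≃ₐ[M] H => ‖τ (g y)‖)
      (fun _ _ => norm_nonneg _) (Finset.mem_univ g)
    linarith
  obtain ⟨E, hE1, hE2⟩ := exists_E (M := M) τ p (ρ / A) (by positivity)
  have hb : ∀ g : H ≃ₐ[M] H, ρ / A * ‖τ (g y)‖ ≤ ρ := by
    intro g
    calc ρ / A * ‖τ (g y)‖ ≤ ρ / A * A := mul_le_mul_of_nonneg_left (hAg g) (by positivity)
      _ = ρ := div_mul_cancel₀ _ hA0.ne'
  have hterm : ∀ g : H ≃ₐ[M] H, ‖τ (g (E * y)) - (if g ∈ D then τ y else 0)‖ ≤ ρ := by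
    intro g
    by_cases hg : g ∈ D
    · rw [if_pos hg]
      have hg' := (hDmem g).1 hg
      have hinv : ∀ x, ‖τ (g x)‖ = ‖τ x‖ := by
        intro x
        have := congrArg (fun a : AbsoluteValue H ℝ => a x) hg'
        exact this
      have e1 : τ (g (E * y)) - τ y = (τ (g E) - 1) * τ (g y) + (τ (g y) - τ y) := by
        rw [map_mul, map_mul]; ring
      rw [e1]
      have e2 : ‖τ (g E) - 1‖ = ‖τ E - 1‖ := by
        have e3 : τ (g E) - 1 = τ (g (E - 1)) := by rw [map_sub, map_sub, map_one, map_one]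
        rw [e3, hinv, map_sub, map_one]
      refine (IsUltrametricDist.norm_add_le_max _ _).trans (max_le ?_ (hy g hinv))
      rw [norm_mul, e2]
      exact (mul_le_mul_of_nonneg_right hE1 (norm_nonneg _)).trans (hb g)
    · rw [if_neg hg, sub_zero, map_mul, map_mul, norm_mul]
      have hg' : av τ g ≠ av τ (1 : H ≃ₐ[M] H) := fun h => hg ((hDmem g).2 h)
      exact (mul_le_mul_of_nonneg_right (hE2 g hg') (norm_nonneg _)).trans (hb g)
  have hsum : ‖∑ g : H ≃ₐ[M] H, (τ (g (E * y)) - (if g ∈ D then τ y else 0))‖ ≤ ρ :=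
    IsUltrametricDist.norm_sum_le_of_forall_le_of_nonneg hρ.le fun g _ => hterm g
  refine ⟨Algebra.trace M H (E * y) / (D.card : M), ?_⟩
  have e1 : τ (algebraMap M H (Algebra.trace M H (E * y) / (D.card : M))) - τ y =
      ((D.card : ℕ) : k)⁻¹ *
        ∑ g : H ≃ₐ[M] H, (τ (g (E * y)) - (if g ∈ D then τ y else 0)) := by
    rw [Finset.sum_sub_distrib, map_div₀, map_div₀, map_natCast, map_natCast,
      trace_eq_sum_automorphisms, map_sum]
    have e2 : (∑ g : H ≃ₐ[M] H, (if g ∈ D then τ y else 0)) = (D.card : k) * τ y := by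
      rw [Finset.sum_ite_mem, Finset.univ_inter, Finset.sum_const, nsmul_eq_mul]
    rw [e2]
    field_simp
  rw [e1, norm_mul, norm_inv]
  exact mul_le_mul_of_nonneg_left hsum (by positivity)

end Pool.Agent.Helper27.PW
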